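import Pool.Agent.LibPRK.FinE

/-!
# Curves over the prime field with prescribed genus and `p`-rank

For every prime `p ≥ 3` and all `g ≥ 3`, `0 ≤ f < g` there is a smooth projective geometrically
connected curve over `F_p` of genus `g` and `p`-rank `f`, if one of the following holds:
* `p ≤ 7`, that is `p = 3`, `5`, `7`;
* `g - f ≥ p ^ ((p + 9) / 2)`;
* `f ≥ 4 p ^ 3`, and `12` does not divide `p - 1` or `g - f ≥ (p - 1) ^ 2 / 4`;
* `g ≥ (2 p) ^ (2 p + 5)`.

So for `p = 3, 5, 7` the question has a positive answer, and for every prime `p` at most finitely many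
pairs `(g, f)` remain: all `f < g` occur as soon as `g ≥ (2 p) ^ (2 p + 5)`.

The definitions used in the statement (`IsFunctionField`, `Place`, `RegularAt`,
`regularDifferentials`, `genus`, `ValueGroup`, `valueAt`, `Div`, `principalDiv`, `DivClass`,
`HasCurve`) are in `Pool.Agent.LibPRB.Curve`, and `IsPl` is in `Pool.Agent.LibPRB.Plc`.

The curves are covers `w ^ p = h w + v` of the line (whose Galois closures have group
`F_p ⋊ F_p^*`), the Kummer covers `u ^ (2 a) = F ^ a * A * B ^ (2 a - 1)` and their Artin-Schreier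
covers, built from the hyperelliptic curve `y ^ 2 = x + x ^ ((p + 3) / 2) + b x ^ p`, which has
genus `(p - 1) / 2` and `p`-rank `(p - 3) / 2` for a suitable `b` in `F_p` (`p = 1` mod `4`), and
from pairs `A`, `B` which change neither the dimension of the kernel of the Cartier operator nor
its nilpotent part.
-/

set_option autoImplicit false

namespace Pool.Agent.Results.MP_b1daeb_ag.AllLargeGenera

/-- For every prime `p ≥ 3` and all `g ≥ 3`, `f < g` there is a smooth projective geometrically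
connected curve over `F_p` of genus `g` and `p`-rank `f`, if `p ≤ 7`, or `g - f ≥ p ^ ((p + 9) / 2)`,
or `f ≥ 4 p ^ 3` and (`12 ∤ p - 1` or `g - f ≥ (p - 1) ^ 2 / 4`), or `g ≥ (2 p) ^ (2 p + 5)`. -/
theorem result (p : ℕ) [Fact p.Prime] (hp : 3 ≤ p) (g f : ℕ) (hg : 3 ≤ g) (hf : f < g)
    (h : p ≤ 7 ∨ f + p ^ ((p + 9) / 2) ≤ g ∨
      (4 * p ^ 3 ≤ f ∧ (¬ 12 ∣ p - 1 ∨ (p - 1) ^ 2 ≤ 4 * (g - f))) ∨
      (2 * p) ^ (2 * p + 5) ≤ g) :
    Pool.Agent.PRB.HasCurve p g f :=
  Pool.Agent.PRB.all_large_e p hp g f hg hf h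

end Pool.Agent.Results.MP_b1daeb_ag.AllLargeGenera
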